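import Pool.Agent.H343.QF.StL

set_option autoImplicit false
set_option linter.unusedSectionVars false

/-! # MP_9a852a_al, part L, task L9: assembly of the sentence (by helper274) -/

namespace Pool.Agent.H274.QF

open Pool.Agent.H343.QF Pool.Agent.H.MP_c33acd_lc FirstOrder FirstOrder.Language

theorem l9 : S_l9 := by
  intro hstd hiso haxG hmd B hB k1 k2 k3
  obtain ⟨c1, ⟨χ, hχ⟩, ⟨ψ, hψ⟩⟩ := hmd B XL
  obtain ⟨φ, hφ⟩ := c1 ψ
  obtain ⟨σ, hσ⟩ : ∃ σ : GrL.Sentence,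
      ∀ (K : Type) [Group K], K ⊨ σ ↔ ∃ w : Bool ⊕ Empty ⊕ Empty → K, Rl XL (φ ⊓ χ) K w := by
    refine ⟨(ren (φ ⊓ χ) Sum.inr).iExs _, fun K _ => ?_⟩
    have h1 : ∀ τ : GrL.Sentence, K ⊨ τ ↔ Rl XL (τ : XL.L.Formula Empty) K default :=
      fun _ => Iff.rfl
    refine (h1 _).trans ((Rl_iExs _ _ _ _).trans (exists_congr fun w => ?_))
    rw [Rl_ren]
    rfl
  refine ⟨σ, (hσ _).2 ?_, fun K _ fg h => ?_⟩
  · obtain ⟨s1, s2, s3⟩ := haxG B hB k1 k2 k3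
    refine ⟨val (gb B) (ga B) Empty.elim Empty.elim, (Rl_and _ _ _ _).2
      ⟨(hφ _ _ _ trivial _ _).2 (s3 _ fun g n => ?_), (hχ _ _ _ s1 _ _).2 s2⟩⟩
    refine (hψ (GG B) (gb B) (ga B) s1 (fun _ => g) fun _ => n).trans
      ⟨fun ⟨k, hk, h⟩ => ?_, fun h => ?_⟩
    · have hk' : g = Wd B (ga B) (gb B) k := hk
      rw [hk']
      exact h
    · obtain ⟨k, hk⟩ := s2.sur g
      exact ⟨k, hk, hk ▸ h⟩
  · obtain ⟨w, hw⟩ := (hσ K).1 h
    have e : w = val (w (Sum.inl true)) (w (Sum.inl false)) Empty.elim Empty.elim := by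
      funext i
      rcases i with (_ | _) | i | i
      · rfl
      · rfl
      · exact i.elim
      · exact i.elim
    rw [e, Rl_and] at hw
    have h1 := hstd B fg _ _ _ ((hφ _ _ _ trivial _ _).1 hw.1)
    exact hiso B _ _ ((hχ _ _ _ h1 _ _).1 hw.2)

end Pool.Agent.H274.QF
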